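import Mathlib
import Pool.Agent.Run7.h598.TT.Iter
import Pool.Agent.Run7.h598.TT.Usc
import Pool.Agent.Run7.h598.TT.Near

/-!
The level `N` area tends to the area of the filled Julia set.
-/

set_option autoImplicit false

open Topology Filter Metric Set Polynomial MeasureTheory
open Pool.Agent.H713R3.ZA
open Pool.Agent.H713R5.QJ

namespace Run7.h598.QT

theorem kj_iff {a : ℂ} {n : ℕ} {x : PE n} {z : ℂ} :
    z ∈ KJ (fam a n x) ↔ ¬ Tendsto (fun k : ℕ => ‖(fx a n x)^[k] z‖) atTop atTop := Iff.rfl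

theorem area_lim {a : ℂ} {n P : ℕ} {B R C₁ R₁ R₃ R₇ r' τ : ℝ} {ψ φ : PE n × ℂ → ℂ}
    (hb : BO a n B R C₁ R₁ R₃ ψ φ) (hR₇ : R₃ + C₁ ≤ R₇) {Es : Finset (Fin n)} {rf : Fin n → Fin n}
    {x : PE n} (hx : x ∈ ball (0 : PE n) B) :
    volume (KJ (fam a n x)) < ⊤ ∧ ∀ η : ℝ, 0 < η → ∃ N : ℕ,
      (volume (BN a n P R₃ R₇ φ Es rf r' τ N x)).toReal ≤
        (volume (KJ (fam a n x))).toReal + η := by
  have e1 := hb.hR
  have e2 := hb.hC
  have e3 := hb.hR₁
  have e4 := hb.hR₃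
  have hxB : ‖x‖ ≤ B := (mem_ball_zero_iff.mp hx).le
  set ρ : ℝ := R₇ + C₁ with hρ
  have hRρ : R ≤ ρ := by linarith
  set E : ℕ → Set ℂ := fun N => {z | ‖(fx a n x)^[N] z‖ ≤ ρ} with hE
  have hcont : ∀ N : ℕ, Continuous (fun z : ℂ => ‖(fx a n x)^[N] z‖) := fun N =>
    (((Pool.Agent.H713R3.ZA.fx_differentiable a n x).continuous).iterate N).norm
  have hEc : ∀ N, IsClosed (E N) := fun N => isClosed_le (hcont N) continuous_const
  have hstep : ∀ w : ℂ, ρ < ‖w‖ → ρ < ‖fx a n x w‖ := by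
    intro w hw
    have h1 := hb.esc x hxB w (by linarith)
    have h2 := norm_nonneg w
    linarith
  have hanti : Antitone E := by
    apply antitone_nat_of_succ_le
    intro N z hz
    by_contra hcon
    have h1 : ρ < ‖(fx a n x)^[N] z‖ := not_le.mp hcon
    have h2 := hstep _ h1
    rw [← Function.iterate_succ_apply' (fx a n x)] at h2
    exact absurd hz (not_le.mpr h2)
  have hEb : ∀ N, E N ⊆ closedBall 0 ρ := by
    intro N z hz
    have h1 := hanti (Nat.zero_le N) hz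
    rw [mem_closedBall_zero_iff]
    exact h1
  have hEf : ∀ N, volume (E N) ≠ ⊤ := fun N =>
    ((measure_mono (hEb N)).trans_lt measure_closedBall_lt_top).ne
  have hKE : ⋂ N, E N = KJ (fam a n x) := by
    ext z
    rw [mem_iInter, kj_iff]
    constructor
    · intro h ht
      obtain ⟨k, hk⟩ := (ht.eventually (eventually_gt_atTop ρ)).exists
      exact absurd (h k) (not_le.mpr hk)
    · intro h N
      by_contra hcon
      apply h
      exact esc_of_large hb hx (k := N) (hRρ.trans (not_le.mp hcon).le)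
  have hlim := tendsto_measure_iInter_atTop (μ := (volume : Measure ℂ))
    (fun N => (hEc N).measurableSet.nullMeasurableSet) hanti ⟨0, hEf 0⟩
  rw [hKE] at hlim
  have hKf : volume (KJ (fam a n x)) < ⊤ := by
    rw [← hKE]
    exact (measure_mono (iInter_subset _ 0)).trans_lt (hEf 0).lt_top
  refine ⟨hKf, fun η hη => ?_⟩
  have hBE : ∀ N, BN a n P R₃ R₇ φ Es rf r' τ N x ⊆ E N := by
    intro N z hz
    by_contra hcon
    have h5 : ρ < ‖(fx a n x)^[N] z‖ := not_le.mp hcon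
    apply hz
    left
    have h6 : R₃ < ‖(fx a n x)^[N] z‖ := by linarith
    refine ⟨h6, ?_⟩
    have h7 := hb.φc x hx _ h6
    have h8 := norm_sub_norm_le ((fx a n x)^[N] z) (φ (x, (fx a n x)^[N] z))
    rw [norm_sub_rev] at h8
    linarith
  have hlt : volume (KJ (fam a n x)) < volume (KJ (fam a n x)) + ENNReal.ofReal η :=
    ENNReal.lt_add_right hKf.ne (by simpa using hη)
  obtain ⟨N, hN⟩ := (hlim.eventually (gt_mem_nhds hlt)).exists
  refine ⟨N, ?_⟩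
  have h1 : volume (BN a n P R₃ R₇ φ Es rf r' τ N x) ≤
      volume (KJ (fam a n x)) + ENNReal.ofReal η := (measure_mono (hBE N)).trans hN.le
  have h2 := ENNReal.toReal_mono (ENNReal.add_ne_top.mpr ⟨hKf.ne, ENNReal.ofReal_ne_top⟩) h1
  rwa [ENNReal.toReal_add hKf.ne ENNReal.ofReal_ne_top, ENNReal.toReal_ofReal hη.le] at h2

/-- the numbers -/
theorem exists_Mq (k N M₀ N₀ : ℕ) {CA Rh Λ : ℝ} (hCA : 2 ≤ CA) :
    ∃ M : ℕ, 1 ≤ M ∧ M₀ ≤ M ∧ N₀ ≤ M ∧ N ≤ M ∧
      8 * Λ ≤ (M : ℝ) ^ 2 / 2 ∧ Real.exp (-((M : ℝ) ^ 2 / 2)) ≤ 1 / 2 ∧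
      4 * Rh ≤ Real.exp ((M : ℝ) ^ 2) - Rh ∧
      (M : ℝ) ^ 2 / 2 ≤ Real.log (Real.exp ((M : ℝ) ^ 2) - Rh) ∧
      2 * (4 * Λ + 2 ^ k * M * Real.log CA) ≤ (M : ℝ) ^ 2 / 2 := by
  have hcast : Tendsto (fun M : ℕ => (M : ℝ)) atTop atTop := tendsto_natCast_atTop_atTop
  have hsq : Tendsto (fun M : ℕ => (M : ℝ) ^ 2) atTop atTop :=
    (tendsto_pow_atTop (two_ne_zero)).comp hcast
  have hexp : Tendsto (fun M : ℕ => Real.exp ((M : ℝ) ^ 2)) atTop atTop :=
    Real.tendsto_exp_atTop.comp hsq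
  have hlogC : 0 ≤ Real.log CA := Real.log_nonneg (by linarith)
  have h4 : ∀ᶠ M : ℕ in atTop, 32 * |Λ| + 4 ≤ (M : ℝ) ^ 2 := hsq.eventually_ge_atTop _
  have h6 : ∀ᶠ M : ℕ in atTop, 5 * |Rh| + 2 * |Rh| ≤ Real.exp ((M : ℝ) ^ 2) :=
    hexp.eventually_ge_atTop _
  have h7 : ∀ᶠ M : ℕ in atTop, 8 * (2 ^ k * Real.log CA) ≤ (M : ℝ) := hcast.eventually_ge_atTop _
  obtain ⟨M, e4, e6, e7, e1, e2, e3, e5⟩ := (h4.and (h6.and (h7.and ((eventually_ge_atTop 1).and
    ((eventually_ge_atTop M₀).and ((eventually_ge_atTop N₀).and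
      (eventually_ge_atTop N))))))).exists
  have hM1 : (1 : ℝ) ≤ M := by exact_mod_cast e1
  have hRh := le_abs_self Rh
  have hRh0 := abs_nonneg Rh
  have hΛ := le_abs_self Λ
  have hΛ0 := abs_nonneg Λ
  refine ⟨M, e1, e2, e3, e5, by linarith, ?_, by linarith, ?_, ?_⟩
  · have h1 : Real.exp (-((M : ℝ) ^ 2 / 2)) ≤ Real.exp (-1) := by
      apply Real.exp_le_exp.mpr
      linarith
    have h2 : Real.exp (-1) ≤ 1 / 2 := by
      rw [Real.exp_neg, inv_le_comm₀ (Real.exp_pos _) (by norm_num)]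
      have := Real.add_one_le_exp (1 : ℝ)
      norm_num at this ⊢
      linarith
    exact h1.trans h2
  · have h1 : Real.exp ((M : ℝ) ^ 2) / 2 ≤ Real.exp ((M : ℝ) ^ 2) - Rh := by linarith
    have h2 : 0 < Real.exp ((M : ℝ) ^ 2) / 2 := by positivity
    have h3 := Real.log_le_log h2 h1
    rw [Real.log_div (Real.exp_pos _).ne' (by norm_num), Real.log_exp] at h3
    have h4 : Real.log 2 ≤ 1 := by
      have := Real.log_two_lt_d9
      linarith
    linarith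
  · have h1 : 2 ^ k * M * Real.log CA ≤ (M : ℝ) ^ 2 / 8 := by
      have h2 : 2 ^ k * (M : ℝ) * Real.log CA = M * (2 ^ k * Real.log CA) := by ring
      rw [h2]
      nlinarith
    linarith

end Run7.h598.QT
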