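import Mathlib
import Pool.Agent.Run7.h598.QT.AreaLim
import Pool.Agent.Run7.h598.TT.Orb
import Pool.Agent.W820.BM.Asm3

/-!
Typed density with a bound by the area of the filled Julia set.
-/

set_option autoImplicit false

open Topology Filter Metric Set Polynomial MeasureTheory
open Pool.Agent.H713R3.ZA
open Pool.Agent.H713R5.QJ
open Run7.h598.TT

namespace Run7.h598.QT

/-- all types within a region of coefficients -/
theorem main_q (H : HH) {a : ℂ} (ha : a ≠ 0) {n : ℕ} (hn : 1 ≤ n) {B : ℝ} (hB0 : 0 < B) :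
    ∃ c₀ : ℝ, 0 < c₀ ∧ ∀ (xT : PE n) (n₁ : ℝ), 0 < n₁ →
      {x : PE n | Dl a n xT x ≤ n₁} ⊆ ball (0 : PE n) B → volume (KJ (fam a n xT)) < ⊤ ∧
      (2 ^ (n + 2) * (volume (KJ (fam a n xT))).toReal < c₀ * n₁ →
      ∀ (k : ℕ) (τt : Fin n → Option (Fin k)),
        (∀ i, Tendsto (fun l : ℕ => ‖(fx a n xT)^[l] (xT (some i))‖) atTop atTop → τt i = none) →
        (∀ j, ∃ i, τt i = some j) → ∀ N₀ : ℕ,
      ∃ (x : PE n) (p : Fin k → ℕ) (z : Fin k → ℂ), Dl a n xT x ≤ n₁ ∧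
        Function.Injective p ∧
        (∀ j, (p j).Prime ∧ N₀ ≤ p j ∧ (fx a n x)^[p j] (z j) = z j ∧
          ‖deriv ((fx a n x)^[p j]) (z j)‖ < 1) ∧
        (∀ i, τt i = none → Tendsto (fun l : ℕ => ‖(fx a n x)^[l] (x (some i))‖) atTop atTop) ∧
        ∀ i j, τt i = some j →
          Tendsto (fun l : ℕ => (fx a n x)^[p j * l] (x (some i))) atTop (𝓝 (z j))) := by
  classical
  obtain ⟨R, C₁, R₁, R₃, ψ, φ, hb⟩ := exists_boett H.bsum H.inv ha hn hB0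
  have hb1 := hb.hR; have hb2 := hb.hC; have hb3 := hb.hR₁; have hb4 := hb.hR₃
  obtain ⟨R₇, hR₇⟩ : ∃ R₇ : ℝ, R₇ = R₃ + C₁ := ⟨_, rfl⟩
  obtain ⟨R₄, R₅, rg, c₀, v, hR₄, hR₄0, hR₅, hrg, hc₀, hv, hgain⟩ :=
    H.gainp H.dic a n B (R₇ + 3 * C₁) ha hn hB0
  obtain ⟨r₁, r₂, hr₁1, hKL⟩ := H.ko3 H.ko0 a n 1 B (1 / 2) (1 / 2) 1 ha hn one_pos hB0
    (by norm_num) (by norm_num) one_pos
  have hr₁ := hKL.r1
  obtain ⟨RA, hRA, hRAB, hgrow, hap2⟩ := Pool.Agent.W346.BM.ap2 a n B ha hn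
  obtain ⟨CA, hCA, hatt⟩ := Pool.Agent.W346.BM.att a n B RA hB0.le (by linarith)
  refine ⟨c₀, hc₀, fun xT n₁ hn₁ hsub => ?_⟩
  have hDl0 : Dl a n xT xT = 0 := by simp [Dl]
  have hxTB : xT ∈ ball (0 : PE n) B := hsub (by
    show Dl a n xT xT ≤ n₁
    rw [hDl0]; exact hn₁.le)
  set Es : Finset (Fin n) := ∅ with hEs
  set rf : Fin n → Fin n := id with hrf
  set ap : Fin n → ℕ := fun _ => 0 with hap
  obtain ⟨hvol, hlim⟩ := area_lim (P := 1) (r' := r₁ / 2) (τ := 1) hb hR₇.ge (Es := Es)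
    (rf := rf) hxTB
  refine ⟨hvol, fun hV k τt hesc hτt N₀ => ?_⟩
  set V₁ : ℝ := (volume (KJ (fam a n xT))).toReal with hV₁
  have hV₁0 : 0 ≤ V₁ := ENNReal.toReal_nonneg
  -- the budget
  obtain ⟨Θ, hΘV, hΘ⟩ : ∃ Θ : ℝ, V₁ < Θ ∧ 2 ^ (n + 2) * Θ < c₀ * n₁ := by
    have h1 : V₁ < c₀ * n₁ / 2 ^ (n + 2) := by
      rw [lt_div_iff₀ (by positivity)]
      linarith
    obtain ⟨Θ, h2, h3⟩ := exists_between h1
    rw [lt_div_iff₀ (by positivity)] at h3
    exact ⟨Θ, h2, by linarith⟩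
  have hΘ0 : 0 < Θ := by linarith
  obtain ⟨η, hη⟩ : ∃ η : ℝ, η = (Θ - V₁) / 4 := ⟨_, rfl⟩
  have hη0 : 0 < η := by rw [hη]; linarith
  obtain ⟨N, hN⟩ := hlim η hη0
  -- the escaping critical points
  set Ee : Finset (Fin n) := Finset.univ.filter (fun i =>
    Tendsto (fun l : ℕ => ‖(fx a n xT)^[l] (xT (some i))‖) atTop atTop) with hEe
  have hEem : ∀ i, i ∈ Ee ↔
      Tendsto (fun l : ℕ => ‖(fx a n xT)^[l] (xT (some i))‖) atTop atTop := fun i => by simp [hEe]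
  have hse : ∀ i ∈ Ee, i ∉ Es := fun i _ => Finset.notMem_empty i
  obtain ⟨M, hM⟩ : ∃ M : ℕ, ∀ i ∈ Ee, R₃ + 2 * C₁ < ‖(fx a n xT)^[M] (xT (some i))‖ := by
    have h1 : ∀ᶠ M : ℕ in atTop, ∀ i ∈ Ee, R₃ + 2 * C₁ < ‖(fx a n xT)^[M] (xT (some i))‖ := by
      rw [Filter.eventually_all_finset]
      intro i hi
      exact ((hEem i).mp hi).eventually (eventually_gt_atTop _)
    exact h1.exists
  have hRFP : RFP n Es rf ap :=
    { mem := fun i hi => absurd hi (Finset.notMem_empty i)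
      idem := fun i hi => absurd hi (Finset.notMem_empty i)
      zero := fun i hi => absurd hi (Finset.notMem_empty i) }
  obtain ⟨hOo, -⟩ := H.nud H.ko0 H.ko1 H.ko2 H.ko3 a n 1 M B R₃ Es Ee rf ap ha hn one_pos hRFP
  set O : Set (PE n) := OO a n 1 M B R₃ Es Ee with hO
  have hxTO : xT ∈ O := ⟨hxTB, fun i hi => absurd hi (Finset.notMem_empty i),
    fun i hi => by have := hM i hi; linarith⟩
  set Ω : Set (PE n) := connectedComponentIn O xT with hΩ
  have : NormedSpace ℝ (PE n) := NormedSpace.restrictScalars ℝ ℂ (PE n)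
  have hΩo : IsOpen Ω := hOo.connectedComponentIn
  have hΩO : Ω ⊆ O := connectedComponentIn_subset O xT
  have hΩc : IsPreconnected Ω := isPreconnected_connectedComponentIn
  have hxTΩ : xT ∈ Ω := mem_connectedComponentIn hxTO
  have hΩB : ∀ x ∈ Ω, ‖x‖ ≤ B := fun x hx => (mem_ball_zero_iff.mp (hΩO hx).1).le
  -- the numbers
  obtain ⟨s₀, hs₀⟩ : ∃ s₀ : ℕ, RA ≤ 2 ^ s₀ := by
    obtain ⟨s₀, hs₀⟩ := pow_unbounded_of_one_lt RA (by norm_num : (1 : ℝ) < 2)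
    exact ⟨s₀, hs₀.le⟩
  obtain ⟨M₀, hM₀, hap2⟩ := hap2 (N + s₀)
  obtain ⟨Λ, hΛ⟩ : ∃ Λ : ℝ, Λ = Real.log (4 * RA) + Real.log 2 := ⟨_, rfl⟩
  have hlog2 : 0 ≤ Real.log 2 := Real.log_nonneg (by norm_num)
  have hlogR : 0 ≤ Real.log (4 * RA) := Real.log_nonneg (by linarith)
  have hlogC : 0 ≤ Real.log CA := Real.log_nonneg (by linarith)
  have hΛ0 : 0 ≤ Λ := by rw [hΛ]; linarith
  obtain ⟨M', m1, m2, m3, m4, m5, m6, m7, m8, m9⟩ := exists_Mq k N M₀ N₀ (CA := CA) (Rh := RA)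
    (Λ := Λ) hCA
  obtain ⟨p, hpinj, hp⟩ := Pool.Agent.W820.BM.exists_primes k M' m1
  choose r hr using hτt
  have hr0 : ∀ j, r j ∉ Ee := by
    intro j hj
    have h1 := hesc (r j) ((hEem _).mp hj)
    rw [hr j] at h1
    simp at h1
  set mm : Fin n → ℕ := fun i => (τt i).elim M' p with hmm
  set rr : Fin n → Option (Fin n) := fun i => (τt i).map r with hrr
  have hmmM : ∀ i, M' ≤ mm i := by
    intro i
    simp only [hmm]
    cases τt i with
    | none => exact le_rfl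
    | some j => exact (hp j).2.1
  -- the fields
  have hfield : ∀ l : Fin n, ∃ (X : PE n → PE n) (j : ℕ), l ∉ Es → l ∉ Ee →
      FF a n 1 M φ Es Ee rf ap (uu a n mm rr) Ω l X j := by
    intro l
    by_cases hl : l ∉ Es ∧ l ∉ Ee
    · obtain ⟨X, j, h⟩ := exists_FF H ha hn one_pos hb hRFP (uu_diff a n mm rr) hse hΩo
        ⟨xT, hxTΩ⟩ hΩO hl.1 hl.2
      exact ⟨X, j, fun _ _ => h⟩
    · exact ⟨fun _ => 0, 0, fun h1 h2 => absurd ⟨h1, h2⟩ hl⟩
  choose X jj hX using hfield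
  set Bd : Finset (Fin n) := Finset.univ.filter (fun l => l ∉ Es ∧ l ∉ Ee) with hBd
  have hBdm : ∀ l, l ∈ Bd ↔ (l ∉ Es ∧ l ∉ Ee) := by
    intro l
    simp [hBd]
  set sp : Fin n → PE n → ℂ := fun l x => fderiv ℂ (cf a n (jj l)) x (X l x) with hsp
  have hspd : ∀ l ∈ Bd, DifferentiableOn ℂ (sp l) Ω := by
    intro l hl
    obtain ⟨h1, h2⟩ := (hBdm l).mp hl
    exact speed_diff (jj l) hΩo (hX l h1 h2).Xd
  have hspne : ∀ l ∈ Bd, ∃ x ∈ Ω, sp l x ≠ 0 := by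
    intro l hl
    obtain ⟨h1, h2⟩ := (hBdm l).mp hl
    exact (hX l h1 h2).ne
  set f₀ : PE n → ℂ := fun x => ∏ l ∈ Bd, sp l x with hf₀
  have hf₀d : DifferentiableOn ℂ f₀ Ω := prod_diff Bd sp hspd
  -- the starting point
  have hev1 : ∀ᶠ x in 𝓝 xT, x ∈ Ω := hΩo.mem_nhds hxTΩ
  have hev2 : ∀ᶠ x in 𝓝 xT, c₀ / 2 * Dl a n xT x < η ∧ Dl a n xT x < n₁ := by
    have h1 : Continuous (fun x => c₀ / 2 * Dl a n xT x) :=
      continuous_const.mul (Dl_continuous a n xT)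
    exact (h1.continuousAt.eventually (gt_mem_nhds (by simp only [hDl0, mul_zero]; exact hη0))).and
      ((Dl_continuous a n xT).continuousAt.eventually (gt_mem_nhds (by simp only [hDl0]; exact hn₁)))
  have hev3 := usc_BN (P := 1) (N := N) (rf := rf) (τ := 1) (r' := r₁ / 2) H ha hn one_pos hb hR₇.ge
    hKL (by linarith) hΩo hΩO (fun x _ i hi => absurd hi (Finset.notMem_empty i)) hxTΩ hη0
  have hev4 : ∀ᶠ x in 𝓝 xT, ∀ l : Fin n, ‖(fx a n x)^[mm l] (x (some l)) -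
      (fx a n xT)^[mm l] (xT (some l))‖ < 1 / 2 := by
    rw [Filter.eventually_all]
    intro l
    have h1 := ((crit_cont a n (mm l) l).sub
      (continuous_const (y := (fx a n xT)^[mm l] (xT (some l))))).norm
    exact h1.continuousAt.eventually (gt_mem_nhds (by simp))
  have hev5 : ∀ᶠ x in 𝓝 xT, ∀ i ∈ Ee, R₃ + 2 * C₁ < ‖(fx a n x)^[M] (x (some i))‖ := by
    rw [Filter.eventually_all_finset]
    intro i hi
    exact (crit_cont a n M i).norm.continuousAt.eventually (lt_mem_nhds (hM i hi))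
  obtain ⟨W, hWev, hWo, hxTW⟩ := _root_.eventually_nhds_iff.mp
    (hev1.and (hev2.and (hev3.and (hev4.and hev5))))
  obtain ⟨x₂, hx₂W, hx₂sp⟩ := exists_ne H.iden Bd sp hΩo hΩc hspd hspne W hWo ⟨xT, hxTW⟩
    (fun x hx => (hWev x hx).1)
  obtain ⟨w1, ⟨w2, w2'⟩, w3, w4, w5⟩ := hWev x₂ hx₂W
  have hx₂B : x₂ ∈ ball (0 : PE n) B := (hΩO w1).1
  -- the compact set
  set F0 : Fin n → ℂ := fun i => φ (x₂, (fx a n x₂)^[M] (x₂ (some i))) with hF0
  have hF0b : ∀ i ∈ Ee, R₃ + C₁ < ‖F0 i‖ := by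
    intro i hi
    have h1 := w5 i hi
    have h2 := hb.φc x₂ hx₂B ((fx a n x₂)^[M] (x₂ (some i))) (by linarith)
    have h3 := norm_sub_norm_le ((fx a n x₂)^[M] (x₂ (some i))) (F0 i)
    rw [norm_sub_rev] at h3
    simp only [hF0] at h3 ⊢
    linarith
  obtain ⟨hLc, hLO⟩ := H.cptq H.ko0 H.ko1 H.ko2 H.ko3 H.nud a n 1 M 0 B R C₁ R₁ R₃ (1 / 2) (1 / 2)
    r₁ r₂ ψ φ Es Ee rf ap F0 (fun _ => 0) xT x₂ n₁ 0 ha hn one_pos hb hKL hRFP
    (fun i hi => absurd hi (Finset.notMem_empty i)) hF0b hsub hr₁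
  set L₁ : Set (PE n) := LL2 a n 1 M 0 ψ Es Ee rf ap F0 (fun _ => 0) xT n₁ 0 x₂ with hL₁
  set L₀ : Set (PE n) := L₁ ∩ Ω with hL₀
  have hL₀c : IsCompact L₀ := by
    have h1 : L₀ = L₁ \ (O \ Ω) := by
      ext x
      constructor
      · rintro ⟨h1, h2⟩
        exact ⟨h1, fun h3 => h3.2 h2⟩
      · rintro ⟨h1, h2⟩
        refine ⟨h1, ?_⟩
        by_contra h3
        exact h2 ⟨hLO h1, h3⟩
    rw [h1]
    exact hLc.diff (diff_open hOo xT)
  have hmemL : ∀ x : PE n, x ∈ L₀ ↔ (Dl a n xT x ≤ n₁ ∧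
      (∀ i ∈ Ee, (fx a n x)^[M] (x (some i)) = ψ (x, F0 i))) ∧ x ∈ Ω := by
    intro x
    constructor
    · rintro ⟨⟨h1, h2, -, -⟩, h3⟩
      exact ⟨⟨h1, h2⟩, h3⟩
    · rintro ⟨⟨h1, h2⟩, h3⟩
      exact ⟨⟨h1, h2, fun i hi => absurd hi (Finset.notMem_empty i),
        fun i hi => absurd hi (Finset.notMem_empty i)⟩, h3⟩
  have hL₀Ω : L₀ ⊆ Ω := inter_subset_right
  have hφF : ∀ x ∈ L₀, ∀ i ∈ Ee, φ (x, (fx a n x)^[M] (x (some i))) = F0 i := by
    intro x hx i hi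
    have hx' := (hmemL x).mp hx
    have hxB : x ∈ ball (0 : PE n) B := (hΩO hx'.2).1
    have h1 := hx'.1.2 i hi
    have h2 := (hΩO hx'.2).2.2 i hi
    have h3 := hb.ψφ x hxB _ h2
    have h4 : ψ (x, φ (x, (fx a n x)^[M] (x (some i)))) = ψ (x, F0 i) := by rw [h3, h1]
    have h5 := φ_norm hb hxB h2
    exact hb.ψi x hxB h5 (show R₁ < ‖F0 i‖ by have := hF0b i hi; linarith) h4
  have hx₂L : x₂ ∈ L₀ := by
    rw [hmemL]
    refine ⟨⟨w2'.le, fun i hi => ?_⟩, w1⟩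
    have h2 := (hΩO w1).2.2 i hi
    exact (hb.ψφ x₂ hx₂B _ h2).symm
  have hDle : ∀ x ∈ L₀, Dl a n xT x ≤ n₁ := fun x hx => ((hmemL x).mp hx).1.1
  -- the environment
  have E : Env a n 1 M N B R C₁ R₁ R₃ R₇ (1 / 2) (1 / 2) r₁ r₂ (r₁ / 2) 1 R₄ R₅ rg c₀ n₁ v ψ φ Es
      Ee rf ap xT Ω L₀ :=
    { ha := ha
      hn := hn
      hP := one_pos
      hb := hb
      hR₇ := hR₇.ge
      hKL := hKL
      hRFP := hRFP
      hΩo := hΩo
      hΩO := hΩO
      hrel := fun x _ i hi => absurd hi (Finset.notMem_empty i)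
      hdis := fun x _ i hi => absurd hi (Finset.notMem_empty i)
      hr' := by positivity
      hr'₁ := by linarith
      hτ := one_pos
      hR₄ := hR₄
      hR₅ := hR₅
      hc₀ := hc₀
      hv := hv
      hgain := hgain
      hL₀c := hL₀c
      hL₀Ω := hL₀Ω
      hlam := fun x _ i hi => absurd hi (Finset.notMem_empty i)
      hCK := fun x _ i hi => absurd hi (Finset.notMem_empty i)
      hF1 := by
        intro x hx i hi
        rw [hφF x hx i hi]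
        have := hF0b i hi
        linarith
      hsat := by
        intro q hq hDq γ hγc hγ0 hev
        have h1 : ∀ᶠ t in 𝓝 (0 : ℂ), Dl a n xT (γ t) < n₁ := by
          have h2 : ContinuousAt (fun t => Dl a n xT (γ t)) 0 :=
            ContinuousAt.comp (f := γ) (g := fun x => Dl a n xT x)
              (Dl_continuous a n xT).continuousAt hγc
          exact h2.eventually (gt_mem_nhds (by simp only [hγ0]; exact hDq))
        filter_upwards [h1, hev] with t ht1 ht2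
        rw [hmemL]
        refine ⟨⟨ht1.le, fun i hi => ?_⟩, ht2.1⟩
        have h3 := ht2.2 i hi
        rw [hφF q hq i hi] at h3
        have h4 := hb.ψφ (γ t) (hΩO ht2.1).1 _ ((hΩO ht2.1).2.2 i hi)
        rw [← h4, h3] }
  have hL₀B : ∀ x ∈ L₀, ‖x‖ ≤ B := fun x hx => hΩB x (hL₀Ω hx)
  have hEst : Est a n 1 N R₃ (r₁ / 2) Es Ee L₀ RA 1 (Real.exp ((M' : ℝ) ^ 2) - RA)
      ((M' : ℝ) ^ 2 / 2) mm rr :=
    { F1 := fun x _ i hi => absurd hi (Finset.notMem_empty i)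
      F2 := fun x hx i => by
        have h1 := norm_le_pi_norm x (some i)
        have h2 := hL₀B x hx
        linarith
      F3 := by
        rintro x hx l hl1 hl2 ⟨j, hj, hjR⟩
        have h1 := far_far hb hs₀ hM₀ hap2 (hL₀B x hx) hj hjR (m2.trans (hmmM l))
        have h2 : Real.exp ((M' : ℝ) ^ 2) ≤ Real.exp ((mm l : ℝ) ^ 2) := by
          apply Real.exp_le_exp.mpr
          have h3 : (M' : ℝ) ≤ mm l := by exact_mod_cast hmmM l
          exact pow_le_pow_left₀ (Nat.cast_nonneg _) h3 2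
        linarith
      F4 := by
        rintro x hx l hl1 hl2 ⟨j, hj, i, hi, -⟩
        exact absurd hi (Finset.notMem_empty i)
      F5 := fun x _ l r _ i hi => absurd hi (Finset.notMem_empty i) }
  -- the numbers
  have hCAi0 : 0 < CA⁻¹ := inv_pos.mpr (by linarith)
  have hCAi1 : CA⁻¹ ≤ 1 := inv_le_one_of_one_le₀ (by linarith)
  obtain ⟨ra, hra⟩ : ∃ ra : ℝ, ra = CA⁻¹ ^ (2 ^ k * M') := ⟨_, rfl⟩
  have hra0 : 0 < ra := by rw [hra]; positivity
  have hra1 : ra ≤ 1 := by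
    rw [hra]
    exact pow_le_one₀ hCAi0.le hCAi1
  obtain ⟨G, hG⟩ : ∃ G : ℝ, G = 2 ^ k * M' * Real.log CA := ⟨_, rfl⟩
  have hG0 : 0 ≤ G := by rw [hG]; positivity
  have hraG : -Real.log ra ≤ G := by
    rw [hra, hG, Real.log_pow, Real.log_inv]
    push_cast
    linarith
  have hM'1 : (1 : ℝ) ≤ M' := by exact_mod_cast m1
  have hQ0 : (Es ×ˢ Finset.range 1).card = 0 := by simp [hEs]
  have hNums : Nums (Es ×ˢ Finset.range 1).card RA 1 (Real.exp ((M' : ℝ) ^ 2) - RA)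
      ((M' : ℝ) ^ 2 / 2) Λ G 1 := by
    rw [hQ0]
    exact
      { hRh := hRA
        hs := one_pos
        hs1 := le_rfl
        l0 := hΛ0
        l1 := by rw [hΛ]; linarith
        l2 := by rw [Real.log_one, hΛ]; linarith
        hG := hG0
        hZ0 := by positivity
        hZ := by
          simp only [Nat.cast_zero, zero_add, mul_one]
          exact m5
        hZs := m6
        hY := m7
        hYZ := m8
        hCl := by
          rw [hG]
          simp only [Nat.cast_zero, zero_add, mul_one, one_mul]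
          exact m9 }
  -- the functional
  obtain ⟨Fm, hFm⟩ := hL₀c.exists_bound_of_continuousOn (hf₀d.continuousOn.mono hL₀Ω)
  have hFm0 : 0 ≤ Fm := (norm_nonneg _).trans (hFm x₂ hx₂L)
  set ff : PE n → ℂ := fun x => ((Fm + 1 : ℝ) : ℂ)⁻¹ * f₀ x with hff
  have hffd : DifferentiableOn ℂ ff Ω := hf₀d.const_mul _
  have hFmc : ((Fm + 1 : ℝ) : ℂ)⁻¹ ≠ 0 := by
    rw [Ne, inv_eq_zero, Complex.ofReal_eq_zero]
    linarith
  have hff1 : ∀ x ∈ L₀, ‖ff x‖ ≤ 1 := by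
    intro x hx
    simp only [hff]
    rw [norm_mul, norm_inv, Complex.norm_real, Real.norm_eq_abs, abs_of_pos (by linarith),
      inv_mul_le_iff₀ (by linarith)]
    linarith [hFm x hx]
  have hfj : ∀ l, l ∉ Es → l ∉ Ee → ∀ x ∈ Ω, ff x ≠ 0 →
      (∀ i ∈ Es, KP (fx a n x) 1 (x (some i)) ≠ 0) ∧ fderiv ℂ (cf a n (jj l)) x (X l x) ≠ 0 := by
    intro l hl1 hl2 x hx hfx
    refine ⟨fun i hi => absurd hi (Finset.notMem_empty i), ?_⟩
    have h1 : f₀ x ≠ 0 := right_ne_zero_of_mul hfx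
    exact Finset.prod_ne_zero_iff.mp h1 l ((hBdm l).mpr ⟨hl1, hl2⟩)
  have hfx₂ : ff x₂ ≠ 0 := mul_ne_zero hFmc (Finset.prod_ne_zero_iff.mpr hx₂sp)
  obtain ⟨δ, hδ⟩ : ∃ δ : ℝ, δ = η / (|Real.log ‖ff x₂‖| + 1) := ⟨_, rfl⟩
  have hδ0 : 0 < δ := by rw [hδ]; positivity
  have hδ1 : -(δ * Real.log ‖ff x₂‖) ≤ η := by
    have h1 : -Real.log ‖ff x₂‖ ≤ |Real.log ‖ff x₂‖| + 1 := by
      have := neg_abs_le (Real.log ‖ff x₂‖)
      linarith
    have h2 := mul_le_mul_of_nonneg_left h1 hδ0.le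
    have h3 : δ * (|Real.log ‖ff x₂‖| + 1) = η := by
      rw [hδ]; field_simp
    linarith
  set V : PE n → ℝ := fun x => (volume (BN a n 1 R₃ R₇ φ Es rf (r₁ / 2) 1 N x)).toReal +
    c₀ / 2 * Dl a n xT x - δ * Real.log ‖ff x‖ with hV
  have hVx₂ : V x₂ ≤ Θ := by
    simp only [hV]
    have : 4 * η = Θ - V₁ := by rw [hη]; ring
    linarith
  have hKb : ∀ l, l ∉ Ee → ∀ m : ℕ, ‖(fx a n xT)^[m] (xT (some l))‖ < RA := by
    intro l hl m
    by_contra hcon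
    push Not at hcon
    exact hl ((hEem l).mpr (Pool.Agent.W820.BM.escapes hRA
      (hgrow xT (mem_ball_zero_iff.mp hxTB).le) hcon))
  have hx₂b : ∀ l, l ∉ Ee → ‖(fx a n x₂)^[mm l] (x₂ (some l))‖ ≤ RA + 1 / 2 := by
    intro l hl
    have h1 := hKb l hl (mm l)
    have h2 := w4 l
    have h3 := norm_add_le ((fx a n x₂)^[mm l] (x₂ (some l)) - (fx a n xT)^[mm l] (xT (some l)))
      ((fx a n xT)^[mm l] (xT (some l)))
    rw [sub_add_cancel] at h3
    linarith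
  have hNB : ∀ l, l ∉ Es → l ∉ Ee → ∀ q ∈ L₀, uu a n mm rr l q = uu a n mm rr l x₂ →
      NB a n 1 Es RA 1 (mm l) l q := by
    intro l hl1 hl2 q hq hup
    refine ⟨?_, fun i hi => absurd hi (Finset.notMem_empty i)⟩
    have h0 := hx₂b l hl2
    rcases hr : rr l with _ | r
    · rw [uu_none hr, uu_none hr] at hup
      rw [hup]
      linarith
    · rw [uu_some hr, uu_some hr] at hup
      have h2 : (fx a n q)^[mm l] (q (some l)) = (fx a n x₂)^[mm l] (x₂ (some l)) +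
          (q (some r) - x₂ (some r)) := by linear_combination hup
      rw [h2]
      have h3 := norm_add_le ((fx a n x₂)^[mm l] (x₂ (some l))) (q (some r) - x₂ (some r))
      have h4 := norm_sub_le (q (some r)) (x₂ (some r))
      have h5 := (norm_le_pi_norm q (some r)).trans (hL₀B q hq)
      have h6 := (norm_le_pi_norm x₂ (some r)).trans (hL₀B x₂ hx₂L)
      linarith
  have hst : ∀ l, l ∉ Es → l ∉ Ee → rr l = none → ‖uu a n mm rr l x₂‖ ≤ 2 * RA := by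
    intro l hl1 hl2 hr
    rw [uu_none hr]
    have h0 := hx₂b l hl2
    linarith
  have hsmall : ((1 : ℝ) + 1) ^ n * (2 * Θ) ≤ c₀ / 2 * n₁ := by
    have h1 : ((1 : ℝ) + 1) ^ n * (2 * Θ) = 2 ^ (n + 2) * Θ / 2 := by
      rw [pow_add]; norm_num; ring
    rw [h1]
    linarith
  -- the iteration
  obtain ⟨x, hxL, -, -, -, hdone⟩ := iter H E hEst hNums zero_le_one (X := X) (jj := jj)
    (fun l h1 h2 => hX l h1 h2) hffd hff1 hfj hδ0 hΘ0 (V := V) (fun x => rfl) hx₂L hfx₂ hVx₂ hNB hst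
    hra0 hra1 hraG hsmall Bd (fun l hl => (hBdm l).mp hl)
  have hxO := hΩO (hL₀Ω hxL)
  have hxB := hL₀B x hxL
  have hgx := hgrow x hxB
  have hnE : ∀ i, i ∉ Es := fun i => Finset.notMem_empty i
  have hcl : ∀ i j, τt i = some j →
      ‖(fx a n x)^[p j] (x (some i)) - x (some (r j))‖ ≤ CA⁻¹ ^ (p j) := by
    intro i j hij
    have hi2 : i ∉ Ee := by
      intro hi
      have h1 := hesc i ((hEem i).mp hi)
      rw [hij] at h1
      simp at h1
    have h1 : rr i = some (r j) := by simp only [hrr, hij, Option.map_some]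
    have h2 := (hdone i ((hBdm i).mpr ⟨hnE i, hi2⟩)).2 (r j) h1
    rw [uu_some h1] at h2
    have h3 : mm i = p j := by simp only [hmm, hij, Option.elim]
    rw [h3] at h2
    refine h2.trans ?_
    rw [hra]
    exact pow_le_pow_of_le_one hCAi0.le hCAi1 (hp j).2.2
  have hsink : ∀ j, ∃ z : ℂ, (fx a n x)^[p j] z = z ∧
      ‖deriv ((fx a n x)^[p j]) z‖ < 1 ∧
      ∀ u : ℂ, ‖(fx a n x)^[p j] u - x (some (r j))‖ ≤ CA⁻¹ ^ (p j) →
        Tendsto (fun l : ℕ => (fx a n x)^[p j * l] u) atTop (𝓝 z) := by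
    intro j
    have hm : 1 ≤ p j := (hp j).1.one_lt.le
    have hclj := hcl (r j) j (hr j)
    have hCAi2 : CA⁻¹ ≤ 1 / 2 := by
      rw [inv_le_comm₀ (by linarith) (by norm_num)]
      linarith
    have hpow : CA⁻¹ ^ (p j) ≤ 1 / 2 := by
      calc CA⁻¹ ^ (p j) ≤ CA⁻¹ ^ 1 := pow_le_pow_of_le_one hCAi0.le hCAi1 hm
        _ ≤ 1 / 2 := by rw [pow_one]; exact hCAi2
    have hxr : ‖x (some (r j))‖ ≤ B := (norm_le_pi_norm x (some (r j))).trans hxB
    have horb : ∀ l ≤ p j, ‖(fx a n x)^[l] (x (some (r j)))‖ ≤ RA := by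
      intro l hl
      by_contra hcon
      push Not at hcon
      have h1 := Pool.Agent.W820.BM.grow hRA hgx hcon.le (p j - l)
      rw [← Function.iterate_add_apply, Nat.sub_add_cancel hl] at h1
      have h3 := norm_add_le ((fx a n x)^[p j] (x (some (r j))) - x (some (r j))) (x (some (r j)))
      rw [sub_add_cancel] at h3
      linarith
    obtain ⟨z, hz1, -, hz3, hz4⟩ := hatt x hxB (x (some (r j))) (by
      rw [deriv_fx, Finset.prod_eq_zero (Finset.mem_univ (r j)) (sub_self _), mul_zero]) (p j) hm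
      horb hclj
    exact ⟨z, hz1, hz3, hz4⟩
  choose z hz1 hz3 hz4 using hsink
  refine ⟨x, p, z, hDle x hxL, hpinj, fun j => ⟨(hp j).1, m3.trans (hp j).2.1, hz1 j, hz3 j⟩, ?_, ?_⟩
  · intro i hi
    by_cases hi2 : i ∈ Ee
    · have h1 := hxO.2.2 i hi2
      exact esc_of_large hb hxO.1 (k := M) (by linarith)
    · have h1 : rr i = none := by simp only [hrr, hi, Option.map_none]
      have h2 := (hdone i ((hBdm i).mpr ⟨hnE i, hi2⟩)).1 h1
      rw [uu_none h1] at h2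
      exact Pool.Agent.W820.BM.escapes hRA hgx (m := mm i) (by rw [h2]; linarith)
  · intro i j hij
    exact hz4 j _ (hcl i j hij)

end Run7.h598.QT
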