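import Mathlib
import Pool.Agent.Run7.h598.QT.QMain
import Pool.Agent.W820.BM.Asm5
import Pool.Agent.H713R5.QJ.TVFAM
import Pool.Agent.H713R5.QJ.Main

/-!
Typed density with a bound by the area of the filled Julia set, continued.
-/

set_option autoImplicit false

open Topology Filter Metric Set Polynomial MeasureTheory
open Pool.Agent.H713R3.ZA
open Pool.Agent.H713R5.QJ
open Run7.h598.TT

namespace Run7.h598.QT

theorem quant {a : ℂ} (ha : a ≠ 0) {n : ℕ} (hn : 1 ≤ n) {b : ℝ} (hb0 : 0 ≤ b) :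
    ∃ C : ℝ, 0 < C ∧ ∀ xT : PE n, (∀ j, ‖(fam a n xT).coeff j‖ ≤ b) →
      volume (KJ (fam a n xT)) < ⊤ ∧
      ∀ ε : ℝ, C * Real.sqrt (volume (KJ (fam a n xT))).toReal < ε →
      ∀ (k : ℕ) (τt : Fin n → Option (Fin k)),
        (∀ i, Tendsto (fun l : ℕ => ‖(fx a n xT)^[l] (xT (some i))‖) atTop atTop → τt i = none) →
        (∀ j, ∃ i, τt i = some j) → ∀ N₀ : ℕ,
      ∃ (x : PE n) (p : Fin k → ℕ) (z : Fin k → ℂ),
        (∀ j : ℕ, ‖(fam a n x).coeff j - (fam a n xT).coeff j‖ < ε) ∧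
        Function.Injective p ∧
        (∀ j, (p j).Prime ∧ N₀ ≤ p j ∧ (fx a n x)^[p j] (z j) = z j ∧
          ‖deriv ((fx a n x)^[p j]) (z j)‖ < 1) ∧
        (∀ i, τt i = none → Tendsto (fun l : ℕ => ‖(fx a n x)^[l] (x (some i))‖) atTop atTop) ∧
        ∀ i j, τt i = some j →
          Tendsto (fun l : ℕ => (fx a n x)^[p j * l] (x (some i))) atTop (𝓝 (z j)) := by
  have ha' : 0 < ‖a‖ := norm_pos_iff.2 ha
  obtain ⟨K, hK⟩ : ∃ K : ℝ, K = b + 2 := ⟨_, rfl⟩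
  have hK0 : 0 ≤ K := by linarith
  obtain ⟨B, hB⟩ : ∃ B : ℝ, B = K / ‖a‖ + K + 2 := ⟨_, rfl⟩
  have hB0 : 0 < B := by rw [hB]; positivity
  obtain ⟨c₀, hc₀, hmain⟩ := main_q hh ha hn hB0
  -- the reference polynomial
  obtain ⟨C', hC', htype⟩ := Pool.Agent.W820.BM.typeA ha hn (c₀ := 0) le_rfl
  obtain ⟨-, htype⟩ := htype 0 (by simp) (by
    intro i
    rw [kj_iff]
    have h0 : fx a n 0 0 = 0 := by
      have h1 : (fam a n 0).coeff 0 = 0 := by rw [coeff_fam_zero]; rfl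
      rw [coeff_zero_eq_eval_zero] at h1
      exact h1
    have h1 : ∀ k : ℕ, (fx a n 0)^[k] ((0 : PE n) (some i)) = 0 := by
      intro k
      exact Function.iterate_fixed h0 k
    simp only [h1, norm_zero]
    exact fun h => not_tendsto_atTop_of_tendsto_nhds tendsto_const_nhds h)
  obtain ⟨A₀, hA₀1, hA₀⟩ := exists_coeff_bound a n 1
  obtain ⟨ε₀, hε₀⟩ : ∃ ε₀ : ℝ, ε₀ = C' * Real.sqrt (volume (KJ (fam a n 0))).toReal + 1 :=
    ⟨_, rfl⟩
  have hε₀0 : 0 < ε₀ := by rw [hε₀]; positivity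
  have htype := htype ε₀ (by rw [hε₀]; linarith)
  obtain ⟨D₀, hD₀⟩ : ∃ D₀ : ℝ, D₀ = ε₀ + A₀ + b := ⟨_, rfl⟩
  have hD₀0 : 0 < D₀ := by linarith
  obtain ⟨v₀, hv₀⟩ : ∃ v₀ : ℝ, v₀ = c₀ / 2 ^ (n + 2) := ⟨_, rfl⟩
  have hv₀0 : 0 < v₀ := by rw [hv₀]; positivity
  have hsv : 0 < Real.sqrt v₀ := Real.sqrt_pos.mpr hv₀0
  have hvol : ∀ xT : PE n, (∀ j, ‖(fam a n xT).coeff j‖ ≤ b) → ∀ n₁ : ℝ, n₁ ≤ 1 →
      {x : PE n | Pool.Agent.H713R3.ZA.Dl a n xT x ≤ n₁} ⊆ ball (0 : PE n) B := by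
    intro xT hT n₁ hn₁ x hx
    rw [hB]
    apply TVFAM.bdd n ha hK0
    intro j _
    have h1 := TVFAM.coeff_of_Dl a n xT x hx j
    have h2 : Real.sqrt n₁ ≤ 1 := Real.sqrt_le_one.mpr hn₁
    have h3 := norm_add_le ((fam a n x).coeff j - (fam a n xT).coeff j) ((fam a n xT).coeff j)
    rw [sub_add_cancel] at h3
    have := hT j
    linarith
  refine ⟨(1 + D₀) / Real.sqrt v₀, by positivity, fun xT hT => ⟨(hmain xT 1 one_pos
    (hvol xT hT 1 le_rfl)).1, ?_⟩⟩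
  intro ε hε k τt hesc hτt N₀
  obtain ⟨V, hV⟩ : ∃ V : ℝ, V = (volume (KJ (fam a n xT))).toReal := ⟨_, rfl⟩
  have hV0 : 0 ≤ V := by rw [hV]; exact ENNReal.toReal_nonneg
  rw [← hV] at hε
  have hsV : 0 ≤ Real.sqrt V := Real.sqrt_nonneg V
  have hε0 : 0 < ε := lt_of_le_of_lt (by positivity) hε
  rcases lt_or_ge V v₀ with hcase | hcase
  · have h1 : V / v₀ < min 1 (ε ^ 2) := by
      apply lt_min
      · rw [div_lt_one hv₀0]; exact hcase
      · have h2 : Real.sqrt V / Real.sqrt v₀ < ε := by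
          refine lt_of_le_of_lt ?_ hε
          rw [div_mul_eq_mul_div]
          apply div_le_div_of_nonneg_right _ hsv.le
          nlinarith
        have h3 : (Real.sqrt V / Real.sqrt v₀) ^ 2 = V / v₀ := by
          rw [div_pow, Real.sq_sqrt hV0, Real.sq_sqrt hv₀0.le]
        rw [← h3]
        exact pow_lt_pow_left₀ h2 (by positivity) two_ne_zero
    obtain ⟨n₁, h2, h3⟩ := exists_between h1
    have hn₁ : 0 < n₁ := lt_of_le_of_lt (by positivity) h2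
    have hn₁1 : n₁ ≤ 1 := (h3.trans_le (min_le_left _ _)).le
    have hn₁ε : n₁ < ε ^ 2 := h3.trans_le (min_le_right _ _)
    obtain ⟨-, hm⟩ := hmain xT n₁ hn₁ (hvol xT hT n₁ hn₁1)
    obtain ⟨x, p, z, e1, e2, e3, e4, e5⟩ := hm (by
      rw [← hV]
      rw [div_lt_iff₀ hv₀0, hv₀] at h2
      have h4 : n₁ * (c₀ / 2 ^ (n + 2)) = c₀ * n₁ / 2 ^ (n + 2) := by ring
      rw [h4, lt_div_iff₀ (by positivity)] at h2
      linarith) k τt hesc hτt N₀
    refine ⟨x, p, z, fun j => ?_, e2, e3, e4, e5⟩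
    refine (TVFAM.coeff_of_Dl a n xT x e1 j).trans_lt ?_
    rw [Real.sqrt_lt' hε0]
    exact hn₁ε
  · obtain ⟨x, p, z, r, e1, e2, e3⟩ := htype k τt hτt N₀
    refine ⟨x, p, z, fun j => ?_, e3.inj, fun j => ⟨(e3.prime j).1, (e3.prime j).2, e3.fix j,
      e3.mul j⟩, e3.esc, e3.att⟩
    have h1 : D₀ < ε := by
      refine lt_of_le_of_lt ?_ hε
      rw [div_mul_eq_mul_div, le_div_iff₀ hsv]
      have h2 : Real.sqrt v₀ ≤ Real.sqrt V := Real.sqrt_le_sqrt hcase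
      have h3 : D₀ * Real.sqrt v₀ ≤ D₀ * Real.sqrt V := mul_le_mul_of_nonneg_left h2 hD₀0.le
      nlinarith
    have h2 := e1 j
    have h3 := hA₀ 0 (by simp) j
    have h4 := hT j
    have h5 : (fam a n x).coeff j - (fam a n xT).coeff j =
      ((fam a n x).coeff j - (fam a n 0).coeff j) + ((fam a n 0).coeff j -
        (fam a n xT).coeff j) := by ring
    rw [h5]
    have h6 := norm_add_le ((fam a n x).coeff j - (fam a n 0).coeff j) ((fam a n 0).coeff j -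
        (fam a n xT).coeff j)
    have h7 := norm_sub_le ((fam a n 0).coeff j) ((fam a n xT).coeff j)
    linarith

end Run7.h598.QT
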